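import Pool.Agent.H7.HD.Targets10
import Pool.Agent.H45.NF.Lib
import Pool.Agent.H3.HD.DM
import Pool.Agent.H17.HD.XK

/-!
# MP_e37c09_lc: module Y1, there are few sets of rank less than `a` in HOD
-/

set_option autoImplicit false

open Ordinal Cardinal Order Set
open scoped ZFSet

universe u

namespace Pool.Agent.H65.HD9.Y1

open _root_.HD

/-- codes of the hereditarily ordinal definable sets with a definable property -/
theorem ds_code {P : ZFSet.{u} → Prop} (hP : DZ fun v => P (v 0)) :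
    DS {c | P (en c)} := by
  have h := HD.NF.dz_en' (R := fun x _ => P x) HD.EN_en 0 hP
  refine ⟨_, h, fun w => ?_⟩
  show P (en (w 0)) ↔ (w 0).toZFSet.IsOrdinal ∧ P (en (w 0).toZFSet.rank)
  rw [rank_toZFSet]
  exact ⟨fun h => ⟨ZFSet.isOrdinal_toZFSet _, h⟩, fun h => h.2⟩

/-- a small union of small families -/
theorem few_union {K : Cardinal.{u}} (hK : K.IsRegular) (hK0 : ℵ₀ < K) {a : Ordinal.{u}}
    (ha : a < K.ord) (Z : Ordinal.{u} → Set Ordinal.{u}) (hZ : ∀ i < a, Few K.ord (Z i)) :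
    Few K.ord {c | ∃ i < a, c ∈ Z i} := by
  classical
  choose! τ hτ e he using hZ
  obtain ⟨s, hs, hs2⟩ := Pool.Agent.H3.HD.exists_bound (ρ := K.ord) (τ := a)
    (by rw [hK.cof_ord]; exact Cardinal.lt_ord.1 ha) τ hτ
  rw [few_iff]
  have hsub : {c | ∃ i < a, c ∈ Z i} ⊆ Set.range
      (fun p : Iio a × Iio (succ s) => e p.1.1 p.2.1) := by
    rintro c ⟨i, hi, hc⟩
    obtain ⟨b, hb, h⟩ := he i hi c hc
    exact ⟨(⟨i, hi⟩, ⟨b, hb.trans_le ((hs2 i hi).trans (le_succ s))⟩), h⟩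
  refine ((Cardinal.mk_le_mk_of_subset hsub).trans Cardinal.mk_range_le).trans_lt ?_
  rw [Cardinal.mk_prod, Cardinal.lift_id, Cardinal.lift_id, Cardinal.mk_Iio_ordinal,
    Cardinal.mk_Iio_ordinal, ← Cardinal.lift_mul, Cardinal.lift_lt]
  have hlim : IsSuccLimit K.ord := Cardinal.isSuccLimit_ord hK0.le
  exact Cardinal.mul_lt_of_lt hK0.le (Cardinal.lt_ord.1 ha)
    (Cardinal.lt_ord.1 (hlim.succ_lt hs))

theorem X : T_Y1.{u} := by
  intro K hK hK0 hpow a
  induction a using WellFoundedLT.induction with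
  | ind a ih =>
    intro ha
    have hsub : {c | HOD (en c) ∧ en c ∈ V_ a} ⊆
        {c | ∃ i < a, c ∈ {c | HOD (en c) ∧ (en c).rank ≤ i}} := by
      rintro c ⟨h1, h2⟩
      rw [ZFSet.mem_vonNeumann] at h2
      exact ⟨_, h2, h1, le_rfl⟩
    have hmono : ∀ {X Y : Set Ordinal.{u}}, X ⊆ Y → Few K.ord Y → Few K.ord X := by
      rintro X Y h ⟨τ, hτ, e, he⟩
      exact ⟨τ, hτ, e, fun x hx => he x (h hx)⟩
    refine hmono hsub (few_union hK hK0 ha _ fun i hi => ?_)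
    -- the sets of rank at most `i`
    set Y : Set Ordinal.{u} := {c | HOD (en c) ∧ en c ∈ V_ i} with hY
    have hYF : Few K.ord Y := ih i hi (hi.trans ha)
    have hYd : DS Y := ds_code (P := fun x => HOD x ∧ x ∈ V_ i)
      ((Pool.Agent.H3.HD.DM.dz_hod 0).and
        (DZ.od (R := fun b v => v 0 ∈ b) (HD.NF.od_V i) (DZ.mem 1 0)))
    obtain ⟨τ, hτ, -, hτ2⟩ := Pool.Agent.H17.HD.XK.idx All.vh hYF
    obtain ⟨β, hβ, f, y, -, hf, hfx⟩ := hpow τ hτ
    let s : Ordinal.{u} → Set Ordinal.{u} := fun c => {j | ∃ c', nth Y j c' ∧ en c' ∈ en c}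
    have hs : ∀ c, DS (s c) := fun c => by
      refine DO.ex (R := fun c' w => nth Y (w 0) c' ∧ en c' ∈ en c) (DO.and ?_ ?_)
      · exact (Pool.Agent.H17.HD.XK.dr_nth All.db hYd).s2 1 0
      · have h := ds_code (P := fun x => x ∈ en c)
          (DZ.od (R := fun b v => v 0 ∈ b) (en_od c) (DZ.mem 1 0))
        exact DO.s1 (X := fun c' => en c' ∈ en c) h 0
    have hfun : ∀ b x x', ZFSet.pair b x ∈ f → ZFSet.pair b x' ∈ f → x = x' := by
      intro b x x' h h'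
      have hb := (ZFSet.pair_mem_prod.1 (hf.1 h)).1
      obtain ⟨w, -, hw⟩ := hf.2 b hb
      rw [hw x h, hw x' h']
    have hinj : ∀ c x, HOD (en c) → (en c).rank ≤ i → os τ (s c) = os τ (s x) →
        en c ⊆ en x := by
      intro c x h1 h2 h3 w hw
      have hwH : HOD w := (hod_iff.1 h1).2 w hw
      obtain ⟨c', rfl⟩ := en_surj hwH.od
      have hcY : c' ∈ Y := ⟨hwH, by
        rw [ZFSet.mem_vonNeumann]
        exact (ZFSet.rank_lt_of_mem hw).trans_le h2⟩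
      obtain ⟨j, -, hj⟩ := (All.vh Y).1 c' hcY
      have hj1 : j.toZFSet ∈ os τ (s c) := ord_mem_os.2 ⟨hτ2 j c' hj, c', hj, hw⟩
      rw [h3, ord_mem_os] at hj1
      obtain ⟨-, c'', hj2, hw2⟩ := hj1
      rwa [Pool.Agent.H17.HD.XK.nth_uniq All.vh hj hj2]
    classical
    refine ⟨β, hβ, fun b => if h : ∃ c, (HOD (en c) ∧ (en c).rank ≤ i) ∧
      ZFSet.pair b.toZFSet (os τ (s c)) ∈ f then Classical.choose h else 0, fun x hx => ?_⟩
    obtain ⟨b, hb, hbf⟩ := hfx (os τ (s x)) (hod_os (hs x) τ) (fun z hz => by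
      obtain ⟨a, ha, -, rfl⟩ := mem_os.1 hz
      exact toZFSet_mem_toZFSet_iff.2 ha)
    refine ⟨b, hb, ?_⟩
    have hex : ∃ c, (HOD (en c) ∧ (en c).rank ≤ i) ∧
      ZFSet.pair b.toZFSet (os τ (s c)) ∈ f := ⟨x, hx, hbf⟩
    simp only [hex, dif_pos]
    obtain ⟨h1, h2⟩ := Classical.choose_spec hex
    have h3 := hfun _ _ _ h2 hbf
    apply en_inj
    ext z
    exact ⟨fun hz => hinj _ _ h1.1 h1.2 h3 hz, fun hz => hinj _ _ hx.1 hx.2 h3.symm hz⟩

end Pool.Agent.H65.HD9.Y1
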